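import Mathlib
import Pool.Agent.Results.MP_71c16a_nt.AtMostTwoPlaces
import Pool.Agent.K4H7.ET.E7
import Pool.Agent.K4H7.ET.X4
import Pool.Agent.K4H7.ET.X5

set_option autoImplicit false

/-!
# The error term in Vojta's inequality for algebraic points of projective space

`k` is a number field, `X = ℙⁿ` with `n ≥ 1`, `D` a sum of `q ≥ n + 2` hyperplanes over `k` in general
position, `S` a finite set of places of `k` which contains the archimedean ones, and `r ≥ 1`. The
points are the algebraic points of degree at most `r` over `k`. `h_K` is `-(n + 1) h`, `h_A` is `h`.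

Vojta's inequality has the error term `ε h_A(x) + O(1)` on the right side. It is shown that
`ε h_A(x)` cannot be replaced by `c log h_A(x)` unless `c ≥ min(n, q - n - 1) (|S| - 2 / r)`, whatever
the exceptional set is, and that the inequality with `ε = 0` holds if and only if `r |S| ≤ 2`.
-/

namespace Pool.Agent.Results.MP_71c16a_nt.ErrorTerm

open NumberField IsDedekindDomain

/-- The value of the linear form with the coefficients `a` over `k` at a point over `L`. -/
def value {k L : Type} [Field k] [Field L] [Algebra k L] {n : ℕ} (a : Fin (n + 1) → k)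
    (x : Fin (n + 1) → L) : L := ∑ j, algebraMap k L (a j) * x j

/-- Hyperplanes in general position: any `n + 1` or fewer of the linear forms are linearly
independent. -/
def InGeneralPosition {k : Type} [Field k] {n q : ℕ} (H : Fin q → Fin (n + 1) → k) : Prop :=
  ∀ I : Finset (Fin q), I.card ≤ n + 1 → LinearIndependent k (fun i : I => H i)

/-- The logarithmic height relative to `k` of a point over `L`. -/
noncomputable def height (k : Type) {L : Type} [Field k] [Field L] [NumberField L] [Algebra k L]
    {n : ℕ} (x : Fin (n + 1) → L) : ℝ := Height.logHeight x / Module.finrank k L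

/-- The primes of `L` above the primes in `S`. -/
def primesAbove {k : Type} [Field k] [NumberField k] (S : Finset (HeightOneSpectrum (𝓞 k)))
    (L : Type) [Field L] [NumberField L] [Algebra k L] : Set (HeightOneSpectrum (𝓞 L)) :=
  {w | ∃ v ∈ S, w.asIdeal.LiesOver v.asIdeal}

/-- The number of the places of `L` above the archimedean places of `k` and the primes in `S`. -/
noncomputable def numberOfPlaces {k : Type} [Field k] [NumberField k]
    (S : Finset (HeightOneSpectrum (𝓞 k))) (L : Type) [Field L] [NumberField L] [Algebra k L] : ℕ :=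
  Fintype.card (InfinitePlace L) + (primesAbove S L).ncard

/-- The number of places in the set `S ⊇ M_k^∞` which consists of the archimedean places of `k` and
the primes in `S`. -/
noncomputable def sizeOfS {k : Type} [Field k] [NumberField k]
    (S : Finset (HeightOneSpectrum (𝓞 k))) : ℕ :=
  Fintype.card (InfinitePlace k) + S.card

/-- The local height `∑ i, log (max_j |x_j| / |H_i(x)|)` of the divisor `D`, for an absolute value of
`L`. -/
noncomputable def weil {k L : Type} [Field k] [Field L] [Algebra k L] {n q : ℕ}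
    (f : AbsoluteValue L ℝ) (H : Fin q → Fin (n + 1) → k) (x : Fin (n + 1) → L) : ℝ :=
  ∑ i, Real.log ((⨆ j, f (x j)) / f (value (H i) x))

/-- The proximity function `∑_{ν ∈ S} λ_D(x, ν)` relative to `k`, where `S` consists of the
archimedean places of `k` and the primes in `S`: the sum of the local heights over the infinite places
`w` of `L` (with the factor `[L_w : ℝ]`) and over the primes of `L` above the primes in `S` (with the
absolute value `N(w) ^ (- ord_w)`), divided by `[L : k]`. -/
noncomputable def proximity {k L : Type} [Field k] [NumberField k] [Field L] [NumberField L]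
    [Algebra k L] {n q : ℕ} (S : Finset (HeightOneSpectrum (𝓞 k))) (H : Fin q → Fin (n + 1) → k)
    (x : Fin (n + 1) → L) : ℝ :=
  (∑ w : InfinitePlace L, (w.mult : ℝ) * weil w.1 H x +
    ∑ᶠ w ∈ primesAbove S L, weil (FinitePlace.mk w).1 H x) / Module.finrank k L

/-- The left side `h_K(x) + ∑_{ν ∈ S} λ_D(x, ν)` of Vojta's inequality. -/
noncomputable def leftSide {k L : Type} [Field k] [NumberField k] [Field L] [NumberField L]
    [Algebra k L] {n q : ℕ} (S : Finset (HeightOneSpectrum (𝓞 k))) (H : Fin q → Fin (n + 1) → k)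
    (x : Fin (n + 1) → L) : ℝ := -(n + 1) * height k x + proximity S H x

/-- The logarithmic discriminant `d_k(L)`. -/
noncomputable def logDisc (k L : Type) [Field k] [NumberField k] [Field L] [NumberField L]
    [Algebra k L] : ℝ :=
  Real.log |(discr L : ℝ)| / Module.finrank k L - Real.log |(discr k : ℝ)|

/-- The inequality for the points over the single field `L` (used in the proof only; not in the
statement of the result). -/
def HoldsOver {k : Type} [Field k] [NumberField k] {n q : ℕ} (S : Finset (HeightOneSpectrum (𝓞 k)))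
    (H : Fin q → Fin (n + 1) → k) (L : Type) [Field L] [NumberField L] [Algebra k L] (c : ℝ) :
    Prop :=
  ∃ G : MvPolynomial (Fin (n + 1)) k, G ≠ 0 ∧ ∃ C : ℝ, ∀ x : Fin (n + 1) → L, x ≠ 0 →
    (∀ i, value (H i) x ≠ 0) → MvPolynomial.aeval x G ≠ 0 →
    leftSide S H x ≤ c * Real.log (max 1 (height k x)) + C

/-- Vojta's inequality with the error term `c log h(x)` (more precisely `c log max(1, h(x))`) for the
points of degree at most `r` over `k`, outside some hypersurface `Z` over `k` and outside `D`: for
all fields `L` of degree at most `r` over `k` and all points over `L`,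
`h_K(x) + ∑_{ν ∈ S} λ_D(x, ν) ≤ c log max(1, h(x)) + d_k(L) + O(1)`. For `c = 0` this is the
inequality with `ε = 0`. -/
def HoldsUpToDegree {k : Type} [Field k] [NumberField k] {n q : ℕ}
    (S : Finset (HeightOneSpectrum (𝓞 k))) (H : Fin q → Fin (n + 1) → k) (r : ℕ) (c : ℝ) : Prop :=
  ∃ G : MvPolynomial (Fin (n + 1)) k, G ≠ 0 ∧ (∃ d : ℕ, G.IsHomogeneous d) ∧ ∃ C : ℝ,
    ∀ (L : Type) [Field L] [NumberField L] [Algebra k L], Module.finrank k L ≤ r →
      ∀ x : Fin (n + 1) → L, x ≠ 0 → (∀ i, value (H i) x ≠ 0) → MvPolynomial.aeval x G ≠ 0 →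
        leftSide S H x ≤ c * Real.log (max 1 (height k x)) + logDisc k L + C

/-- The lower bound over a single field. -/
lemma over_field {k : Type} [Field k] [NumberField k] {n q : ℕ}
    (S : Finset (HeightOneSpectrum (𝓞 k))) (H : Fin q → Fin (n + 1) → k)
    (hH : InGeneralPosition H) (hq : n + 2 ≤ q) (L : Type) [Field L] [NumberField L] [Algebra k L]
    (c : ℝ) (hc : 0 ≤ c) (hL : HoldsOver S H L c) :
    (min n (q - n - 1) : ℕ) * ((numberOfPlaces S L : ℝ) - 2) ≤ Module.finrank k L * c := by
  classical
  set m : ℕ := min n (q - n - 1) with hm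
  have hd : (0 : ℝ) < Module.finrank k L := by exact_mod_cast Module.finrank_pos
  rcases le_or_gt (numberOfPlaces S L) 2 with hs | hs
  · have h1 : (numberOfPlaces S L : ℝ) ≤ 2 := by exact_mod_cast hs
    have h2 : (m : ℝ) * ((numberOfPlaces S L : ℝ) - 2) ≤ 0 :=
      mul_nonpos_of_nonneg_of_nonpos (Nat.cast_nonneg _) (by linarith)
    exact h2.trans (mul_nonneg hd.le hc)
  obtain ⟨G, hG0, C, hC⟩ := hL
  have hfin : (primesAbove S L).Finite := (Pool.Agent.K4H7.ET.card_above_le k L S).1
  set T : Finset (HeightOneSpectrum (𝓞 L)) := hfin.toFinset with hT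
  have hcard : Fintype.card (InfinitePlace L) + T.card = numberOfPlaces S L := by
    rw [numberOfPlaces, Set.ncard_eq_toFinset_card _ hfin]
  have hH0 : ∀ i, H i ≠ 0 := by
    intro i
    have h1 := hH {i} (by simp)
    exact h1.ne_zero (⟨i, Finset.mem_singleton_self i⟩ : ({i} : Finset (Fin q)))
  obtain ⟨C₁, hC₁, B₀, hB₀, hmain⟩ := Pool.Agent.K4H7.ET.main_L T (by omega) H hH hH0 m
    (min_le_left _ _) (by have := min_le_right n (q - n - 1); omega) G hG0
  set d : ℝ := (Module.finrank k L : ℝ) with hdd
  -- the left side at the points of the sequence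
  have hleft : ∀ x : Fin (n + 1) → L, d * leftSide S H x = -(n + 1) * Height.logHeight x +
      Pool.Agent.K4H7.ET.Sm T (fun f => ∑ i, Real.log (Pool.Agent.K4H7.ET.nm f x /
        f (Pool.Agent.K4H7.ET.val (H i) x))) := by
    intro x
    have h1 : proximity S H x = Pool.Agent.K4H7.ET.Sm T (fun f => ∑ i,
        Real.log (Pool.Agent.K4H7.ET.nm f x / f (Pool.Agent.K4H7.ET.val (H i) x))) / d := by
      unfold proximity Pool.Agent.K4H7.ET.Sm
      rw [finsum_mem_eq_finite_toFinset_sum _ hfin]
      rfl
    unfold leftSide height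
    rw [h1, ← hdd]
    field_simp
  -- asymptotics
  by_contra hcon
  push Not at hcon
  set δ : ℝ := (m : ℝ) * ((numberOfPlaces S L : ℝ) - 2) - d * c with hδ
  have hδ0 : 0 < δ := by rw [hδ]; linarith
  set A : ℝ := 1 + C₁ / d with hA
  have hA1 : 1 ≤ A := by
    have : 0 < C₁ / d := by positivity
    linarith
  obtain ⟨B, hB⟩ := exists_nat_gt (Real.exp ((C₁ + d * (c * Real.log A + |C|)) / (2 * δ)))
  set B₁ : ℕ := max B B₀ + 1 with hB₁
  obtain ⟨x, hx0, hHx, hGx, hxh, hxl⟩ := hmain B₁ (by omega)
  have hB1 : (1 : ℝ) ≤ B₁ := by exact_mod_cast (by omega : 1 ≤ B₁)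
  have hB0 : (0 : ℝ) < B₁ := by linarith
  have hlogB : 0 ≤ Real.log B₁ := Real.log_nonneg hB1
  have h1 := hC x hx0 hHx hGx
  have h2 : Real.log (max 1 (height k x)) ≤ Real.log A + 2 * Real.log B₁ := by
    have h3 : max 1 (height k x) ≤ A * (B₁ : ℝ) ^ 2 := by
      have h4 : (1 : ℝ) ≤ (B₁ : ℝ) ^ 2 := one_le_pow₀ hB1
      have h5 : 0 < C₁ / d := by positivity
      refine max_le ?_ ?_
      · rw [← one_mul (1 : ℝ)]
        exact mul_le_mul hA1 h4 (by norm_num) (by linarith)
      · unfold height
        rw [hA, add_mul, one_mul, div_le_iff₀ (by exact hd)]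
        have h6 : C₁ / d * (B₁ : ℝ) ^ 2 * (Module.finrank k L : ℝ) = C₁ * (B₁ : ℝ) ^ 2 := by
          rw [← hdd]
          field_simp
        rw [add_mul, h6]
        have h7 : 0 ≤ (B₁ : ℝ) ^ 2 * (Module.finrank k L : ℝ) := by positivity
        linarith
    have h4 := Real.log_le_log (lt_of_lt_of_le one_pos (le_max_left _ _)) h3
    rw [Real.log_mul (by linarith) (by positivity), Real.log_pow] at h4
    exact_mod_cast h4
  have h3 : c * Real.log (max 1 (height k x)) ≤ c * (Real.log A + 2 * Real.log B₁) :=
    mul_le_mul_of_nonneg_left h2 hc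
  have h4 : d * leftSide S H x ≤ d * (c * (Real.log A + 2 * Real.log B₁) + |C|) := by
    refine mul_le_mul_of_nonneg_left ?_ hd.le
    have := le_abs_self C
    linarith
  rw [hleft x] at h4
  rw [show ((Fintype.card (InfinitePlace L) + T.card : ℕ) : ℝ) = numberOfPlaces S L by
    exact_mod_cast hcard] at hxl
  have h5 : 2 * δ * Real.log B₁ ≤ C₁ + d * (c * Real.log A + |C|) := by
    have h6 := hxl.trans h4
    rw [hδ]
    linarith
  have h6 : (C₁ + d * (c * Real.log A + |C|)) / (2 * δ) < Real.log B₁ := by
    rw [Real.lt_log_iff_exp_lt hB0]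
    have h7 : (B : ℝ) ≤ B₁ := by exact_mod_cast (by omega : B ≤ B₁)
    linarith
  rw [div_lt_iff₀ (by linarith)] at h6
  linarith

/-- **The error term in Vojta's inequality for algebraic points.** Let `H_i` be `q ≥ n + 2` linear
forms in `n + 1 ≥ 2` variables over the number field `k` in general position, `S` a finite set of
primes of `k` (the archimedean places are always added; `|S|` counts them), `r ≥ 1`.
If Vojta's inequality holds for all points of degree at most `r` with
`c log max(1, h(x)) + d_k(L) + O(1)` on the right side, `c ≥ 0`, then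
`min(n, q - n - 1) (|S| - 2 / r) ≤ c`; and it holds with `d_k(L) + O(1)` on the right side if and
only if `r |S| ≤ 2`. -/
theorem result (k : Type) [Field k] [NumberField k] (n q : ℕ) (hn : 1 ≤ n) (hq : n + 2 ≤ q)
    (H : Fin q → Fin (n + 1) → k) (hH : InGeneralPosition H)
    (S : Finset (HeightOneSpectrum (𝓞 k))) (r : ℕ) (hr : 1 ≤ r) :
    (∀ c : ℝ, 0 ≤ c → HoldsUpToDegree S H r c →
      (min n (q - n - 1) : ℕ) * ((sizeOfS S : ℝ) - 2 / r) ≤ c) ∧
    (HoldsUpToDegree S H r 0 ↔ r * sizeOfS S ≤ 2) := by
  classical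
  have h1 : ∀ (L : Type) [Field L] [NumberField L] [Algebra k L] (c : ℝ), 0 ≤ c →
      HoldsOver S H L c →
      (min n (q - n - 1) : ℕ) * ((numberOfPlaces S L : ℝ) - 2) ≤ Module.finrank k L * c :=
    fun L _ _ _ c hc hL => over_field S H hH hq L c hc hL
  have hrr : (0 : ℝ) < r := by exact_mod_cast hr
  have h2 : ∀ c : ℝ, 0 ≤ c → HoldsUpToDegree S H r c →
      (min n (q - n - 1) : ℕ) * ((sizeOfS S : ℝ) - 2 / r) ≤ c := by
    intro c hc hh
    obtain ⟨L, iF, iN, iA, hLr, T, hT, hcardT⟩ := Pool.Agent.K4H7.ET.exists_ext S r hr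
    obtain ⟨G, hG0, -, C, hC⟩ := hh
    have h3 := h1 L c hc ⟨G, hG0, logDisc k L + C, fun x hx hHx hGx => by
      have := hC L hLr.le x hx hHx hGx
      linarith⟩
    rw [hLr] at h3
    have hfin : (primesAbove S L).Finite := (Pool.Agent.K4H7.ET.card_above_le k L S).1
    have h4 : r * sizeOfS S ≤ numberOfPlaces S L := by
      refine hcardT.trans (Nat.add_le_add_left ?_ _)
      rw [← Set.ncard_coe_finset]
      exact Set.ncard_le_ncard (fun w hw => hT w hw) hfin
    have h5 : (r : ℝ) * sizeOfS S ≤ numberOfPlaces S L := by exact_mod_cast h4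
    have h6 : ((min n (q - n - 1) : ℕ) : ℝ) * ((r : ℝ) * sizeOfS S - 2) ≤ r * c :=
      (mul_le_mul_of_nonneg_left (by linarith) (Nat.cast_nonneg _)).trans h3
    have h7 : ((min n (q - n - 1) : ℕ) : ℝ) * ((r : ℝ) * sizeOfS S - 2) =
        r * (((min n (q - n - 1) : ℕ) : ℝ) * ((sizeOfS S : ℝ) - 2 / r)) := by
      field_simp
    rw [h7] at h6
    exact le_of_mul_le_mul_left h6 hrr
  refine ⟨h2, fun hh => ?_, fun hs => ?_⟩
  · by_contra hcon
    push Not at hcon
    have h3 := h2 0 le_rfl hh
    have h4 : (0 : ℝ) < (min n (q - n - 1) : ℕ) := by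
      have : 1 ≤ min n (q - n - 1) := le_min hn (by omega)
      exact_mod_cast this
    have h5 : (2 : ℝ) < r * sizeOfS S := by exact_mod_cast hcon
    have h6 : 0 < (sizeOfS S : ℝ) - 2 / r := by
      rw [sub_pos, div_lt_iff₀ hrr]
      linarith
    exact absurd h3 (not_le.2 (mul_pos h4 h6))
  · obtain ⟨Z, hZ, C, hmain⟩ :=
      Pool.Agent.Results.MP_71c16a_nt.AtMostTwoPlaces.result k n q H hH
    set lin : (Fin (n + 1) → k) → MvPolynomial (Fin (n + 1)) k := fun a =>
      ∑ j, MvPolynomial.C (a j) * MvPolynomial.X j with hlin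
    have hlin0 : ∀ a : Fin (n + 1) → k, a ≠ 0 → lin a ≠ 0 := by
      intro a ha h
      obtain ⟨j, hj⟩ := Function.ne_iff.1 ha
      have h2 := congrArg (MvPolynomial.eval (Pi.single j (1 : k))) h
      simp only [hlin, map_sum, map_mul, MvPolynomial.eval_C, MvPolynomial.eval_X, map_zero] at h2
      rw [Finset.sum_eq_single j (fun b _ hb => by rw [Pi.single_eq_of_ne hb, mul_zero])
        (fun h => absurd (Finset.mem_univ _) h), Pi.single_eq_same, mul_one] at h2
      exact hj h2
    have hlinh : ∀ a : Fin (n + 1) → k, (lin a).IsHomogeneous 1 := by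
      intro a
      refine MvPolynomial.IsHomogeneous.sum _ _ _ fun j _ => ?_
      have := (MvPolynomial.isHomogeneous_C (Fin (n + 1)) (a j)).mul
        (MvPolynomial.isHomogeneous_X k j)
      rwa [zero_add] at this
    refine ⟨∏ a ∈ Z, lin a, Finset.prod_ne_zero_iff.2 fun a ha => hlin0 a (hZ a ha),
      ⟨_, MvPolynomial.IsHomogeneous.prod Z lin (fun _ => 1) fun a _ => hlinh a⟩,
      C + Real.log |(discr k : ℝ)|, ?_⟩
    intro L _ _ _ hL x hx hHx hGx
    rw [map_prod] at hGx
    have hplaces : numberOfPlaces S L ≤ 2 := by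
      have h3 : numberOfPlaces S L ≤ Module.finrank k L * sizeOfS S := by
        rw [sizeOfS, mul_add]
        exact Nat.add_le_add Pool.Agent.K4H7.ET.card_inf_le
          (Pool.Agent.K4H7.ET.card_above_le k L S).2
      exact h3.trans ((Nat.mul_le_mul_right _ hL).trans hs)
    have h3 : leftSide S H x ≤ C := (hmain S L x hx hHx (by
      intro a ha
      have h4 := Finset.prod_ne_zero_iff.1 hGx a ha
      simp only [hlin, map_sum, map_mul, MvPolynomial.aeval_C, MvPolynomial.aeval_X] at h4
      exact h4)).1 hplaces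
    have h4 : 0 ≤ Real.log |(discr L : ℝ)| / Module.finrank k L := by
      refine div_nonneg (Real.log_nonneg ?_) (Nat.cast_nonneg _)
      have h5 : (1 : ℤ) ≤ |discr L| := Int.one_le_abs (discr_ne_zero L)
      exact_mod_cast h5
    unfold logDisc
    linarith

end Pool.Agent.Results.MP_71c16a_nt.ErrorTerm
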