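import Mathlib
import Pool.Agent.Results.MP_71c16a_nt.AtMostTwoPlaces
import Pool.Agent.K4H7.ET.X5
import Pool.Agent.K4H7.EZ.B3

set_option autoImplicit false

/-!
# When can the exceptional set in Vojta's conjecture be chosen independently of `ε`?

`k` is a number field, `X = ℙⁿ` with `n ≥ 2`, `D` a sum of `q ≥ n + 2` hyperplanes over `k` in general
position, `S` a finite set of places of `k` which contains the archimedean ones, and `r ≥ 2`. The
points are the algebraic points of degree at most `r` over `k`. `h_K` is `-(n + 1) h`, `h_A` is `h`.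

It is shown that in Vojta's inequality one closed set `Z` works for all `ε > 0` if and only if
`r |S| ≤ 2`, that is, `r = 2` and `|S| = 1`. The same holds with `κ d_k(x)` in place of `d_k(x)`, for
all `0 ≤ κ < n + 1` (for `r = 3` and `|S| = 1`, for all `0 ≤ κ < (n + 1) / 2`).
-/

namespace Pool.Agent.Results.MP_71c16a_nt.ExceptionalSetEpsilon

open NumberField IsDedekindDomain

/-- The value of the linear form with the coefficients `a` over `k` at a point over `L`. -/
def value {k L : Type} [Field k] [Field L] [Algebra k L] {n : ℕ} (a : Fin (n + 1) → k)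
    (x : Fin (n + 1) → L) : L := ∑ j, algebraMap k L (a j) * x j

/-- Hyperplanes in general position: any `n + 1` or fewer of the linear forms are linearly
independent. -/
def InGeneralPosition {k : Type} [Field k] {n q : ℕ} (H : Fin q → Fin (n + 1) → k) : Prop :=
  ∀ I : Finset (Fin q), I.card ≤ n + 1 → LinearIndependent k (fun i : I => H i)

/-- The logarithmic height relative to `k` of a point over `L`. -/
noncomputable def height (k : Type) {L : Type} [Field k] [Field L] [NumberField L] [Algebra k L]
    {n : ℕ} (x : Fin (n + 1) → L) : ℝ := Height.logHeight x / Module.finrank k L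

/-- The primes of `L` above the primes in `S`. -/
def primesAbove {k : Type} [Field k] [NumberField k] (S : Finset (HeightOneSpectrum (𝓞 k)))
    (L : Type) [Field L] [NumberField L] [Algebra k L] : Set (HeightOneSpectrum (𝓞 L)) :=
  {w | ∃ v ∈ S, w.asIdeal.LiesOver v.asIdeal}

/-- The number of places in the set `S ⊇ M_k^∞` which consists of the archimedean places of `k` and
the primes in `S`. -/
noncomputable def sizeOfS {k : Type} [Field k] [NumberField k]
    (S : Finset (HeightOneSpectrum (𝓞 k))) : ℕ :=
  Fintype.card (InfinitePlace k) + S.card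

/-- The local height `∑ i, log (max_j |x_j| / |H_i(x)|)` of the divisor `D`, for an absolute value of
`L`. -/
noncomputable def weil {k L : Type} [Field k] [Field L] [Algebra k L] {n q : ℕ}
    (f : AbsoluteValue L ℝ) (H : Fin q → Fin (n + 1) → k) (x : Fin (n + 1) → L) : ℝ :=
  ∑ i, Real.log ((⨆ j, f (x j)) / f (value (H i) x))

/-- The proximity function `∑_{ν ∈ S} λ_D(x, ν)` relative to `k`, where `S` consists of the
archimedean places of `k` and the primes in `S`: the sum of the local heights over the infinite places
`w` of `L` (with the factor `[L_w : ℝ]`) and over the primes of `L` above the primes in `S` (with the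
absolute value `N(w) ^ (- ord_w)`), divided by `[L : k]`. -/
noncomputable def proximity {k L : Type} [Field k] [NumberField k] [Field L] [NumberField L]
    [Algebra k L] {n q : ℕ} (S : Finset (HeightOneSpectrum (𝓞 k))) (H : Fin q → Fin (n + 1) → k)
    (x : Fin (n + 1) → L) : ℝ :=
  (∑ w : InfinitePlace L, (w.mult : ℝ) * weil w.1 H x +
    ∑ᶠ w ∈ primesAbove S L, weil (FinitePlace.mk w).1 H x) / Module.finrank k L

/-- The left side `h_K(x) + ∑_{ν ∈ S} λ_D(x, ν)` of Vojta's inequality. -/
noncomputable def leftSide {k L : Type} [Field k] [NumberField k] [Field L] [NumberField L]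
    [Algebra k L] {n q : ℕ} (S : Finset (HeightOneSpectrum (𝓞 k))) (H : Fin q → Fin (n + 1) → k)
    (x : Fin (n + 1) → L) : ℝ := -(n + 1) * height k x + proximity S H x

/-- The logarithmic discriminant `d_k(L)`. -/
noncomputable def logDisc (k L : Type) [Field k] [NumberField k] [Field L] [NumberField L]
    [Algebra k L] : ℝ :=
  Real.log |(discr L : ℝ)| / Module.finrank k L - Real.log |(discr k : ℝ)|

/-- Vojta's inequality for the points of degree at most `r` over `k` with one exceptional set for all
`ε > 0`, and with the factor `κ` in front of the logarithmic discriminant: there is a hypersurface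
`G = 0` over `k` such that for every `ε > 0` there is a constant `C` such that, for all fields `L` of
degree at most `r` over `k` and all points `x` over `L` outside `D` and outside `G = 0`,
`h_K(x) + ∑_{ν ∈ S} λ_D(x, ν) ≤ ε h(x) + κ d_k(L) + C`. The inequality of the problem is the one with
`κ = 1`. -/
def OneSetForAllEpsilon {k : Type} [Field k] [NumberField k] {n q : ℕ}
    (S : Finset (HeightOneSpectrum (𝓞 k))) (H : Fin q → Fin (n + 1) → k) (r : ℕ) (κ : ℝ) : Prop :=
  ∃ G : MvPolynomial (Fin (n + 1)) k, G ≠ 0 ∧ (∃ d : ℕ, G.IsHomogeneous d) ∧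
    ∀ ε : ℝ, 0 < ε → ∃ C : ℝ,
      ∀ (L : Type) [Field L] [NumberField L] [Algebra k L], Module.finrank k L ≤ r →
        ∀ x : Fin (n + 1) → L, x ≠ 0 → (∀ i, value (H i) x ≠ 0) → MvPolynomial.aeval x G ≠ 0 →
          leftSide S H x ≤ ε * height k x + κ * logDisc k L + C

/-- **Independence of `ε`.** Let `n ≥ 2`, let `H_i` be `q ≥ n + 2` linear forms in `n + 1` variables
over the number field `k` in general position, `S` a finite set of primes of `k` (the archimedean
places are always added; `|S|` counts them), `r ≥ 2`, and `0 ≤ κ < n + 1`, for `|S| = 1` and `r = 3`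
even `κ < (n + 1) / 2`; for instance `κ = 1`. There is one exceptional hypersurface over `k` which
works for all `ε > 0` in Vojta's inequality for the points of degree at most `r` if and only if
`r |S| ≤ 2`. -/
theorem result (k : Type) [Field k] [NumberField k] (n q : ℕ) (hn : 2 ≤ n) (hq : n + 2 ≤ q)
    (H : Fin q → Fin (n + 1) → k) (hH : InGeneralPosition H)
    (S : Finset (HeightOneSpectrum (𝓞 k))) (r : ℕ) (hr : 2 ≤ r) (κ : ℝ) (hκ : 0 ≤ κ)
    (hκn : κ < n + 1) (hκ3 : sizeOfS S = 1 → r = 3 → κ < (n + 1) / 2) :
    OneSetForAllEpsilon S H r κ ↔ r * sizeOfS S ≤ 2 := by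
  classical
  constructor
  · intro hh
    by_contra hcon
    push Not at hcon
    obtain ⟨m, rfl⟩ : ∃ m, n = m + 2 := ⟨n - 2, by omega⟩
    -- the units
    obtain ⟨μ, hgood, hκμ⟩ : ∃ μ : ℝ, Pool.Agent.K4H7.EZ.Good S r μ ∧ κ * μ < m + 3 := by
      have hpos : 0 < Fintype.card (InfinitePlace k) := Fintype.card_pos
      have hκn' : κ < m + 3 := by
        push_cast at hκn
        linarith
      rcases le_or_gt 2 (sizeOfS S) with h2 | h2
      · exact ⟨1, Pool.Agent.K4H7.EZ.good_two S h2 r hr, by rwa [mul_one]⟩
      · have h1 : sizeOfS S = 1 := by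
          unfold sizeOfS at h2 ⊢
          omega
        rw [h1, mul_one] at hcon
        rcases Nat.lt_or_ge r 4 with h4 | h4
        · have h3 : r = 3 := by omega
          refine ⟨2, Pool.Agent.K4H7.EZ.good_three S r (by omega), ?_⟩
          have h5 := hκ3 h1 h3
          push_cast at h5
          linarith
        · have hS : S = ∅ := by
            unfold sizeOfS at h1
            have : S.card = 0 := by omega
            exact Finset.card_eq_zero.1 this
          exact ⟨1, Pool.Agent.K4H7.EZ.good_four S hS r h4, by rwa [mul_one]⟩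
    obtain ⟨G, hG0, ⟨d, hGd⟩, hG⟩ := hh
    obtain ⟨ε, hε0, hmain⟩ := Pool.Agent.K4H7.EZ.main (by omega) H hH S r μ κ hκ hκμ hgood G hG0 d hGd
    set δ : ℝ := (Module.finrank ℚ k : ℝ) with hδ
    obtain ⟨C, hC⟩ := hG ε hε0
    obtain ⟨L, iF, iN, iA, hfin, x, hx0, hHx, hGx, T, hT, hlt⟩ := hmain C
    have h1 := hC L hfin x hx0 hHx hGx
    have hd : (0 : ℝ) < Module.finrank k L := by exact_mod_cast Module.finrank_pos
    have hset : primesAbove S L = (T : Set (HeightOneSpectrum (𝓞 L))) := by
      ext w
      exact (hT w).symm
    have h2 : proximity S H x * Module.finrank k L = Pool.Agent.K4H7.ET.Sm T (fun f => ∑ i,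
        Real.log (Pool.Agent.K4H7.ET.nm (n := m + 2) f x /
          f (Pool.Agent.K4H7.ET.val (n := m + 2) (H i) x))) := by
      unfold proximity Pool.Agent.K4H7.ET.Sm
      rw [div_mul_cancel₀ _ hd.ne', hset, finsum_mem_coe_finset]
      rfl
    have h3 : logDisc k L * Module.finrank k L = Module.finrank k L * Module.finrank ℚ k *
        (Pool.Agent.Y733.VR.ld L - Pool.Agent.Y733.VR.ld k) := by
      unfold logDisc Pool.Agent.Y733.VR.ld
      rw [Pool.Agent.Y733.VR.finrank_tower k L]
      have h4 : (0 : ℝ) < Module.finrank ℚ k := Pool.Agent.Y733.VR.deg_pos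
      field_simp
    have h4 := mul_le_mul_of_nonneg_right h1 hd.le
    have h5 : height k x * Module.finrank k L = Height.logHeight x := by
      unfold height
      rw [div_mul_cancel₀ _ hd.ne']
    have h6 : leftSide S H x * Module.finrank k L =
        -(m + 3) * Height.logHeight x + proximity S H x * Module.finrank k L := by
      unfold leftSide
      rw [← h5]
      push_cast
      ring
    have h7 : (ε * height k x + κ * logDisc k L + C) * Module.finrank k L =
        ε * Height.logHeight x + κ * (logDisc k L * Module.finrank k L) +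
          C * Module.finrank k L := by
      rw [← h5]
      ring
    rw [h6, h7, h2, h3] at h4
    linarith
  · intro hs
    obtain ⟨Z, hZ, C, hmain⟩ :=
      Pool.Agent.Results.MP_71c16a_nt.AtMostTwoPlaces.result k n q H hH
    refine ⟨∏ a ∈ Z, Pool.Agent.K4H7.EZ.lin a,
      Finset.prod_ne_zero_iff.2 fun a ha => Pool.Agent.K4H7.EZ.lin_ne a (hZ a ha),
      ⟨_, MvPolynomial.IsHomogeneous.prod Z _ (fun _ => 1)
        fun a _ => Pool.Agent.K4H7.EZ.lin_hom a⟩, fun ε hε =>
      ⟨C + κ * Real.log |(discr k : ℝ)|, ?_⟩⟩
    intro L _ _ _ hL x hx hHx hGx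
    rw [map_prod] at hGx
    have hfin : (primesAbove S L).Finite := (Pool.Agent.K4H7.ET.card_above_le k L S).1
    have hplaces : Fintype.card (InfinitePlace L) + (primesAbove S L).ncard ≤ 2 := by
      have h3 : Fintype.card (InfinitePlace L) + (primesAbove S L).ncard ≤
          Module.finrank k L * sizeOfS S := by
        rw [sizeOfS, mul_add]
        exact Nat.add_le_add Pool.Agent.K4H7.ET.card_inf_le
          (Pool.Agent.K4H7.ET.card_above_le k L S).2
      exact h3.trans ((Nat.mul_le_mul_right _ hL).trans hs)
    have h3 : leftSide S H x ≤ C := (hmain S L x hx hHx (by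
      intro a ha
      have h4 := Finset.prod_ne_zero_iff.1 hGx a ha
      rw [Pool.Agent.K4H7.EZ.lin_aeval] at h4
      exact h4)).1 hplaces
    have h4 : 0 ≤ Real.log |(discr L : ℝ)| / Module.finrank k L := by
      refine div_nonneg (Real.log_nonneg ?_) (Nat.cast_nonneg _)
      have h5 : (1 : ℤ) ≤ |discr L| := Int.one_le_abs (discr_ne_zero L)
      exact_mod_cast h5
    have h5 : 0 ≤ height k x := div_nonneg (Height.logHeight_nonneg x) (Nat.cast_nonneg _)
    have h6 : 0 ≤ κ * (Real.log |(discr L : ℝ)| / Module.finrank k L) := mul_nonneg hκ h4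
    have h7 : 0 ≤ ε * height k x := mul_nonneg hε.le h5
    unfold logDisc
    linarith

end Pool.Agent.Results.MP_71c16a_nt.ExceptionalSetEpsilon
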