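import Mathlib
import Pool.Agent.K4H9.PS.Fermat

/-!
# Vojta's inequality on Fermat surfaces and their generalisations, off the lines

Let `L_0, …, L_{q-1}`, `q ≥ 4`, be linear forms in three variables with integer coefficients, any three
of them linearly independent, and `m ≥ 1`. The points `(y_0 : … : y_{q-1})` such that
`(y_0 ^ m : … : y_{q-1} ^ m) = (L_0(x) : … : L_{q-1}(x))` for some `x` in `ℙ²` form a smooth complete
intersection `X_m` of dimension two in `ℙ^(q-1)`; for `q = 4` it is a diagonal surface of degree `m`, and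
a Fermat surface over `ℚ-bar`. Let `D` be the divisor `y_0 ⋯ y_{q-1} = 0` on `X_m`; it has normal
crossings. `h_K(P) = (m (q - 3) - q) h(P)` and `m h(P) = h(x) + O(1)`. We consider all points `P` of all
`X_m`, over all number fields, above the rational points `x`; their degree is at most `m ^ (q-1)`. Vojta's
inequality with the term `ε m h(P)` is `(θ m - q) h(P) + ∑_{ν ∈ S} λ_D(P, ν) ≤ d(P) + c` for
`θ = q - 3 - ε`.

A special line is a line of `ℙ²` through `L_i ∩ L_j` and `L_k ∩ L_l`, with `i, j, k, l` different. For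
`q = 4` the inverse image in `X_m` of the three special lines is the union of the `3 m²` standard lines
of the diagonal surface.

The inequality holds for all `m`, all number fields and all points above `x`, for all but
`O(B ^ (2 - η))` of the points `x` of height at most `B` off the special lines (and all but
`O(B ^ (2 + δ))` of all `x`), even for every `θ < q - 1`. On a line of `ℙ²` there are about `B ^ 2` points
`x`, and about `B ^ 3` in `ℙ²`.
-/

set_option autoImplicit false

namespace Pool.Agent.Results.MP_71c16a_nt.FermatSurfaces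

open Finset NumberField IsDedekindDomain

/-- The value at `x` of the linear form with coefficients `a`. -/
def form (a x : Fin 3 → ℤ) : ℤ := ∑ j, a j * x j

/-- The lines `L i = 0` of the plane are in general position: any three of the linear forms are
linearly independent. -/
def GeneralPosition {q : ℕ} (L : Fin q → Fin 3 → ℤ) : Prop :=
  ∀ i j k, i ≠ j → i ≠ k → j ≠ k → (Matrix.of ![L i, L j, L k]).det ≠ 0

/-- The height `log max |x_j|` of the point of `ℙ²` with coprime integer coordinates `x`. -/
noncomputable def height (x : Fin 3 → ℤ) : ℝ :=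
  Real.log ((univ.sup fun j => (x j).natAbs : ℕ) : ℝ)

/-- The absolute logarithmic height of the point with homogeneous coordinates `y` in the number
field `F`. -/
noncomputable def pointHeight {F : Type} [Field F] [NumberField F] {q : ℕ} (y : Fin q → F) : ℝ :=
  Height.logHeight y / Module.finrank ℚ F

/-- The logarithmic discriminant `log |disc F| / [F : ℚ]`. -/
noncomputable def logDisc (F : Type) [Field F] [NumberField F] : ℝ :=
  Real.log |(discr F : ℝ)| / Module.finrank ℚ F

/-- The local Weil function `∑ i, log (max_j |y_j| / |y_i|)` of the divisor `D`, for an absolute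
value. -/
noncomputable def weil {F : Type} [Field F] {q : ℕ} (f : AbsoluteValue F ℝ) (y : Fin q → F) : ℝ :=
  ∑ i, Real.log ((⨆ j, f (y j)) / f (y i))

/-- The proximity function `∑_{ν ∈ S} λ_D(P, ν)`, where `S` consists of the archimedean places and of
the primes in the finite set `S`: the sum of the local Weil functions over the infinite places `w` of
`F` (with the factor `[F_w : ℝ]`) and over the primes of `F` above the primes in `S` (with the absolute
value `N(w) ^ (- ord_w)`), divided by `[F : ℚ]`. -/
noncomputable def proximity {F : Type} [Field F] [NumberField F] {q : ℕ}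
    (S : Finset (HeightOneSpectrum (𝓞 ℚ))) (y : Fin q → F) : ℝ :=
  (∑ w : InfinitePlace F, (w.mult : ℝ) * weil w.1 y +
    ∑ᶠ w ∈ {w : HeightOneSpectrum (𝓞 F) | ∃ v ∈ S, w.asIdeal.LiesOver v.asIdeal},
      weil (FinitePlace.mk w).1 y) / Module.finrank ℚ F

/-- For some `m ≥ 1`, there are a number field `F` and a point `P = (y_0 : … : y_{q-1})` over `F` with
`(y_i ^ m) = t v`, `t ≠ 0`, which violates
`(θ m - q) h(P) + ∑_{ν ∈ S} λ_D(P, ν) ≤ d(P) + c`. -/
def Violates {q : ℕ} (S : Finset (HeightOneSpectrum (𝓞 ℚ))) (θ c : ℝ) (v : Fin q → ℤ) : Prop :=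
  ∃ (m : ℕ) (F : Type) (_ : Field F) (_ : NumberField F) (y : Fin q → F) (t : F),
    1 ≤ m ∧ t ≠ 0 ∧ (∀ i, y i ^ m = t * (v i : F)) ∧
      logDisc F + c < (θ * m - q) * pointHeight y + proximity S y

/-- The rational points `x` off the lines (every point of `ℙ²(ℚ)` is given by its two vectors of
coprime integer coordinates), of height at most `log B`, above which some point of some `X_m` violates
the inequality. -/
def Exceptional {q : ℕ} (L : Fin q → Fin 3 → ℤ) (S : Finset (HeightOneSpectrum (𝓞 ℚ)))
    (θ c B : ℝ) : Set (Fin 3 → ℤ) :=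
  {x | univ.gcd x = 1 ∧ (∀ i, form (L i) x ≠ 0) ∧ height x ≤ Real.log B ∧
    Violates S θ c fun i => form (L i) x}

/-- The points on no special line: for different `i, j, k, l` the point `x` is not on the line
through the intersection points of the lines `L i`, `L j` and of the lines `L k`, `L l`. -/
def OffSpecialLines {q : ℕ} (L : Fin q → Fin 3 → ℤ) : Set (Fin 3 → ℤ) :=
  {x | ∀ i j k l, i ≠ j → i ≠ k → i ≠ l → j ≠ k → j ≠ l → k ≠ l →
    (Matrix.of ![x, crossProduct (L i) (L j), crossProduct (L k) (L l)]).det ≠ 0}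

lemma ld_eq (F : Type) [Field F] [NumberField F] :
    Pool.Agent.TH905.VF.ld ℚ F = logDisc F := by
  unfold Pool.Agent.TH905.VF.ld logDisc
  rw [Rat.numberField_discr]
  simp

lemma Violates.viol {q : ℕ} {S : Finset (HeightOneSpectrum (𝓞 ℚ))} {θ c : ℝ} {v : Fin q → ℤ}
    (h : Violates S θ c v) : Pool.Agent.K4H9.PS.Viol S θ c (fun i => ((v i : ℤ) : ℚ)) := by
  obtain ⟨m, F, i1, i2, y, t, hm, ht, hy, hvi⟩ := h
  refine ⟨m, F, i1, i2, inferInstance, y, t, by omega, ht, fun i => ?_, ?_⟩
  · rw [hy i, map_intCast]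
  · rw [ld_eq]
    exact hvi

/-- Let `L_0, …, L_{q-1}`, `q ≥ 4`, be integer linear forms in three variables, any three of them
linearly independent, `S` a finite set of primes, `θ ≥ 0` and `c` real. If `θ < q - 1`, there are `η > 0`
and `C` such that, for all but at most `C B ^ (2 - η)` of the rational points `x` of `ℙ²` of height at
most `log B` off the lines `L_i = 0` and off the special lines, ALL points `P` above `x` of ALL `X_m`,
`m ≥ 1`, over ALL number fields satisfy `(θ m - q) h(P) + ∑_{ν ∈ S ∪ {∞}} λ_D(P, ν) ≤ d(P) + c`. If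
`θ ≤ q`, the same holds for all but `C_δ B ^ (max (3 + θ - q) 2 + δ)` of the rational points `x` of
height at most `log B` off the lines `L_i = 0`, for every `δ > 0`. -/
theorem result (q : ℕ) (hq : 4 ≤ q) (L : Fin q → Fin 3 → ℤ) (hL : GeneralPosition L)
    (S : Finset (HeightOneSpectrum (𝓞 ℚ))) (θ : ℝ) (hθ : 0 ≤ θ) (c : ℝ) :
    (θ < q - 1 → ∃ η : ℝ, 0 < η ∧ ∃ C : ℝ, ∀ B : ℝ, 1 ≤ B →
      (Exceptional L S θ c B ∩ OffSpecialLines L).Finite ∧
      ((Exceptional L S θ c B ∩ OffSpecialLines L).ncard : ℝ) ≤ C * B ^ (2 - η)) ∧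
    (θ ≤ q → ∀ δ : ℝ, 0 < δ → ∃ C : ℝ, ∀ B : ℝ, 1 ≤ B →
      (Exceptional L S θ c B).Finite ∧
      ((Exceptional L S θ c B).ncard : ℝ) ≤ C * B ^ (max (3 + θ - q) 2 + δ)) := by
  have hsub : ∀ B : ℝ, Exceptional L S θ c B ⊆ Pool.Agent.K4H9.PS.Bad L S θ c B := by
    rintro B x ⟨h1, h2, h3, h4⟩
    exact ⟨h1, h2, h3, h4.viol⟩
  refine ⟨fun h => ?_, fun h δ hδ => ?_⟩
  · obtain ⟨η, hη, C, hC⟩ := Pool.Agent.K4H9.PS.fermat_off (by omega) hL S hθ h c
    refine ⟨η, hη, C, fun B hB => ?_⟩
    have hf := Pool.Agent.K4H9.PS.bad_finite (L := L) S θ c B hB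
    have hs : Exceptional L S θ c B ∩ OffSpecialLines L ⊆
        Pool.Agent.K4H9.PS.Bad L S θ c B ∩ Pool.Agent.K4H9.PS.OffL L :=
      Set.inter_subset_inter_left _ (hsub B)
    refine ⟨(hf.subset Set.inter_subset_left).subset hs, le_trans ?_ (hC B hB)⟩
    exact_mod_cast Set.ncard_le_ncard hs (hf.subset Set.inter_subset_left)
  · obtain ⟨C, hC⟩ := Pool.Agent.K4H9.PS.fermat_all (by omega) hL S hθ h c hδ
    refine ⟨C, fun B hB => ?_⟩
    have hf := Pool.Agent.K4H9.PS.bad_finite (L := L) S θ c B hB
    refine ⟨hf.subset (hsub B), le_trans ?_ ((hC B hB).trans (le_of_eq ?_))⟩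
    · exact_mod_cast Set.ncard_le_ncard (hsub B) hf
    · congr 3
      ring

end Pool.Agent.Results.MP_71c16a_nt.FermatSurfaces
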