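import Mathlib
import Pool.Agent.K4H51.RD.F
import Pool.Agent.K4H51.RD.G

set_option autoImplicit false

/-!
# Vojta's conjecture for the algebraic points of random covers of projective space

`D = D_1 + ... + D_r` is a divisor of `ℙ^n` over `ℚ`; its components `D_i = {F_i = 0}` have degrees
`d_1, ..., d_r`, and `F_i` is a form with coprime integer coefficients. For positive integers `m_i`
dividing the `d_i` let `X` be the cover `w_i ^ (m_i) = F_i(x)` (`i = 1, ..., r`) of `ℙ^n`, a complete
intersection in a weighted projective space. It is ramified over `D`; its ramification divisor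
`D' = ∑ {w_i = 0}` has the local heights `λ_{D'}(P, v) = ∑ (1 / m_i) λ_{D_i}(x, v)` for a point `P`
above `x`, and `h_{K_X}(P) = (∑ d_i (1 - 1 / m_i) - n - 1) h(x)`.

For all but a proportion `C e^(-η T)` of the divisors `D` of height at most `T`, for all exponents
`m_i` at once, all the algebraic points `P` of `X` above all rational points `x` of `ℙ^n` off `D` of
height at most `T` satisfy Vojta's inequality

  `h_{K_X}(P) + ∑_{v ∈ S} λ_{D'}(P, v) + (∑ (1 - 1 / m_i) - ε) T ≤ ε h(x) + d_ℚ(P)`.
-/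

namespace Pool.Agent.Results.MP_71c16a_nt.RandomCovers

open Finset MvPolynomial

/-- the maximum of the absolute values of the coordinates -/
def size {n : ℕ} (x : Fin (n + 1) → ℤ) : ℕ := univ.sup fun j => (x j).natAbs

/-- the height `h(x) = log max |x_j|` of a point with coprime integer coordinates -/
noncomputable def h {n : ℕ} (x : Fin (n + 1) → ℤ) : ℝ := Real.log (size x : ℝ)

/-- the divisors `∑ i, (F i = 0)` of `ℙ^n` over `ℚ`, where `F i` is a form of degree `d i` with
coprime integer coefficients of absolute value at most `e ^ T` -/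
def Divisors (n r : ℕ) (d : Fin r → ℕ) (T : ℝ) : Set (Fin r → MvPolynomial (Fin (n + 1)) ℤ) :=
  {F | ∀ i, (F i).IsHomogeneous (d i) ∧ (F i).support.gcd (fun m => (F i).coeff m) = 1 ∧
    ∀ m, |(((F i).coeff m : ℤ) : ℝ)| ≤ Real.exp T}

/-- the proximity function `∑_{v ∈ S} λ(x, v)` of the divisor `F = 0`, where `S` consists of the
archimedean place of `ℚ` and of the primes in the set `S`, at a point `x` with coprime integer
coordinates; `F` is a form of degree `d` with coprime integer coefficients. The local heights are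
`log (|F| |x|^d / |F(x)|)` at the archimedean place (`|F|` and `|x|` are the maxima of the absolute
values of the coefficients and of the coordinates) and `ord_p F(x) log p` at a prime `p`. -/
noncomputable def proximity {n : ℕ} (S : Finset ℕ) (F : MvPolynomial (Fin (n + 1)) ℤ) (d : ℕ)
    (x : Fin (n + 1) → ℤ) : ℝ :=
  Real.log (((F.support.sup fun m => (F.coeff m).natAbs : ℕ) : ℝ) * (size x : ℝ) ^ d /
    |((eval x F : ℤ) : ℝ)|) +
  ∑ p ∈ S.filter Nat.Prime, (padicValInt p (eval x F) : ℝ) * Real.log p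

/-- some algebraic point `P` of some cover `w_i ^ (m_i) = F_i(x)`, above the rational point `x`,
violates Vojta's inequality: there are exponents `m i`, a number field `L` and elements `w i` of `L`
with `w i ^ m i = F_i(x)` such that the logarithmic discriminant `d(L) = log |disc L| / [L : ℚ]` is less
than
`(∑ d_i (1 - 1 / m_i) - n - 1 - ε) h(x) + ∑ (1 / m_i) ∑_{v ∈ S} λ_{D_i}(x, v) + (∑ (1 - 1 / m_i) - ε) T`.
(The field generated by the `w i` has the smallest logarithmic discriminant.) -/
def Violated (n r : ℕ) (d : Fin r → ℕ) (S : Finset ℕ) (ε T : ℝ)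
    (F : Fin r → MvPolynomial (Fin (n + 1)) ℤ) (x : Fin (n + 1) → ℤ) : Prop :=
  ∃ (m : Fin r → ℕ) (L : Type) (_ : Field L) (_ : NumberField L) (w : Fin r → L),
    (∀ i, 1 ≤ m i ∧ w i ^ m i = ((eval x (F i) : ℤ) : L)) ∧
    Real.log |(NumberField.discr L : ℝ)| / Module.finrank ℚ L <
      (∑ i, (d i : ℝ) * (1 - 1 / (m i : ℝ)) - n - 1 - ε) * h x +
        ∑ i, 1 / (m i : ℝ) * proximity S (F i) (d i) x + (∑ i, (1 - 1 / (m i : ℝ)) - ε) * T

/-- the divisors of height at most `T` such that the inequality is violated above some rational point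
of height at most `T` off the divisor -/
def Exceptional (n r : ℕ) (d : Fin r → ℕ) (S : Finset ℕ) (ε T : ℝ) :
    Set (Fin r → MvPolynomial (Fin (n + 1)) ℤ) :=
  {F ∈ Divisors n r d T | ∃ x : Fin (n + 1) → ℤ, univ.gcd x = 1 ∧ h x ≤ T ∧
    (∀ i, eval x (F i) ≠ 0) ∧ Violated n r d S ε T F x}

/-- Let `n ≥ 1`, `d i ≥ 1`, `S` a finite set of primes and `ε > 0`. All but a proportion `C e^(-η T)` of
the divisors `D = ∑ (F i = 0)` of `ℙ^n` with components of degrees `d i` and of height at most `T` have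
the following property. For all exponents `m i ≥ 1`, all rational points `x` off `D` of height at most
`T` and all algebraic points `P = (x, w)`, `w i ^ m i = F i (x)`, defined over a number field `L`,
`d(L) ≥ (∑ d_i (1 - 1 / m_i) - n - 1 - ε) h(x) + ∑ (1 / m_i) ∑_{v ∈ S} λ_{D_i}(x, v) +
(∑ (1 - 1 / m_i) - ε) T`. -/
theorem result (n r : ℕ) (hn : 1 ≤ n) (d : Fin r → ℕ) (hd : ∀ i, 1 ≤ d i) (S : Finset ℕ) (ε : ℝ)
    (hε : 0 < ε) :
    (∀ T : ℝ, (Divisors n r d T).Finite) ∧
    ∃ η : ℝ, 0 < η ∧ ∃ C : ℝ, ∀ T : ℝ, 0 ≤ T →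
      ((Exceptional n r d S ε T).ncard : ℝ) ≤
        C * Real.exp (-η * T) * (Divisors n r d T).ncard := by
  have hfin : ∀ T : ℝ, (Divisors n r d T).Finite := fun T =>
    Pool.Agent.K4H51.RD.PForms_finite n r d (Real.exp T) (Real.exp_pos T).le
  refine ⟨hfin, ?_⟩
  obtain ⟨η, hη, C, hmain⟩ := Pool.Agent.K4H51.RD.main n r hn d hd S (n + 1) (3 ^ (n + 1))
    (by positivity) (by positivity) ε hε
  refine ⟨η, hη, C, fun T hT => ?_⟩
  refine le_trans ?_ (hmain {x | univ.gcd x = 1} (fun x hx => hx)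
    (Pool.Agent.K4H51.RD.all_points n) T hT)
  rw [Nat.cast_le]
  refine Set.ncard_le_ncard ?_ ((hfin T).subset fun F hF => hF.1)
  rintro F ⟨hF, x, hx1, hxT, hx0, m, L, _, _, w, hw, hv⟩
  refine ⟨hF, x, hx1, hxT, hx0, ?_⟩
  have hkey := Pool.Agent.K4H51.RD.disc_main (L := L) S m (fun i => by have := (hw i).1; omega) w
    (fun i => eval x (F i)) hx0 (fun i => (hw i).2)
  have hN : Pool.Agent.Y594.NT.N1 S (∏ i, eval x (F i)) =
      ∑ p ∈ (∏ i, eval x (F i)).natAbs.primeFactors \ S, Real.log p := rfl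
  have hh : Pool.Agent.Y594.NT.ht x = h x := rfl
  rw [hN, hh]
  refine lt_of_le_of_lt hkey ?_
  have hsx : (0 : ℝ) < size x := by exact_mod_cast Pool.Agent.Y594.NT.sup_pos hx1
  have hterm : ∀ i, 1 / (m i : ℝ) * (Real.log |((eval x (F i) : ℤ) : ℝ)| -
      ∑ p ∈ S.filter Nat.Prime, (padicValInt p (eval x (F i)) : ℝ) * Real.log p) ≤
      1 / (m i : ℝ) * (T + d i * h x - proximity S (F i) (d i) x) := by
    intro i
    refine mul_le_mul_of_nonneg_left ?_ (by positivity)
    obtain ⟨-, hg, hc⟩ := hF i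
    have hne : F i ≠ 0 := by
      intro h0
      exact hx0 i (by rw [h0, map_zero])
    have hpos : 0 < (F i).support.sup fun m => ((F i).coeff m).natAbs := by
      obtain ⟨m', hm'⟩ := MvPolynomial.support_nonempty.2 hne
      have h1 : ((F i).coeff m').natAbs ≤ (F i).support.sup fun m => ((F i).coeff m).natAbs :=
        le_sup (f := fun m => ((F i).coeff m).natAbs) hm'
      have h2 : 0 < ((F i).coeff m').natAbs := Int.natAbs_pos.2 (MvPolynomial.mem_support_iff.1 hm')
      omega
    have hsup : Real.log (((F i).support.sup fun m => ((F i).coeff m).natAbs : ℕ) : ℝ) ≤ T := by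
      rw [Real.log_le_iff_le_exp (by exact_mod_cast hpos)]
      obtain ⟨m', hm', hsm⟩ := exists_mem_eq_sup (F i).support (MvPolynomial.support_nonempty.2 hne)
        (fun m => ((F i).coeff m).natAbs)
      rw [hsm, Nat.cast_natAbs, Int.cast_abs]
      exact hc m'
    unfold proximity
    have he : ((eval x (F i) : ℤ) : ℝ) ≠ 0 := by exact_mod_cast hx0 i
    rw [Real.log_div (by positivity) (abs_ne_zero.2 he), Real.log_mul (by positivity) (by positivity),
      Real.log_pow]
    unfold h
    linarith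
  have hsum := Finset.sum_le_sum fun i (_ : i ∈ (univ : Finset (Fin r))) => hterm i
  have e1 : ∑ i, 1 / (m i : ℝ) * (T + d i * h x - proximity S (F i) (d i) x) =
      (∑ i, 1 / (m i : ℝ)) * T + (∑ i, (d i : ℝ) * (1 / (m i : ℝ))) * h x -
        ∑ i, 1 / (m i : ℝ) * proximity S (F i) (d i) x := by
    rw [sum_mul, sum_mul, ← sum_add_distrib, ← sum_sub_distrib]
    exact sum_congr rfl fun i _ => by ring
  have e2 : ∑ i, (d i : ℝ) * (1 - 1 / (m i : ℝ)) =
      ∑ i, (d i : ℝ) - ∑ i, (d i : ℝ) * (1 / (m i : ℝ)) := by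
    rw [← sum_sub_distrib]
    exact sum_congr rfl fun i _ => by ring
  have e3 : ∑ i : Fin r, (1 - 1 / (m i : ℝ)) = r - ∑ i, 1 / (m i : ℝ) := by
    rw [sum_sub_distrib]
    simp
  rw [e1] at hsum
  rw [e2, e3] at hv
  push_cast
  nlinarith

end Pool.Agent.Results.MP_71c16a_nt.RandomCovers
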